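import Pool.Agent.Helper76.CQ.Defs
import Mathlib.NumberTheory.Padics.Complex
import Mathlib.RingTheory.Polynomial.Vieta

/-!
# Project CQ: Newton polygons with one slope and the norms of the roots (CQ-7a)
-/

namespace Pool.Agent.Helper67.CQ

open Pool.Agent.Helper76.CQ

/-- The sum of terms of norm smaller than `C` has norm smaller than `C`. -/
theorem norm_sum_lt {ι : Type*} (t : Finset ι) (f : ι → PadicAlgCl 2) (C : ℝ) (hC : 0 < C)
    (h : ∀ i ∈ t, ‖f i‖ < C) : ‖∑ i ∈ t, f i‖ < C := by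
  rcases t.eq_empty_or_nonempty with rfl | ht
  · simpa using hC
  · obtain ⟨i, hi, h1⟩ := IsUltrametricDist.exists_norm_finsetSum_le_of_nonempty ht f
    exact lt_of_le_of_lt h1 (h i hi)

/-- The powers of the norms of the terms of the polynomial. -/
theorem norm_term {s : ℕ} {χ : Polynomial ℚ_[2]} (hχ : Slope s χ) (z : PadicAlgCl 2) (i : ℕ)
    (hi : i < 11) :
    ‖algebraMap ℚ_[2] (PadicAlgCl 2) (χ.coeff i) * z ^ i‖ ^ 11 ≤
      ((1 / 2 : ℝ) ^ s) ^ (11 - i) * (‖z‖ ^ 11) ^ i := by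
  rw [norm_mul, norm_algebraMap', norm_pow, mul_pow, ← pow_mul, ← pow_mul, ← pow_mul,
    mul_comm i 11]
  exact mul_le_mul_of_nonneg_right (hχ.le i hi) (pow_nonneg (norm_nonneg _) _)

theorem slope_root {s : ℕ} {χ : Polynomial ℚ_[2]} (hχ : Slope s χ) (z : PadicAlgCl 2)
    (hz : Polynomial.aeval z χ = 0) : ‖z‖ ^ 11 = (1 / 2 : ℝ) ^ s := by
  have hS : (0 : ℝ) < (1 / 2 : ℝ) ^ s := by positivity
  have hc11 : χ.coeff 11 = 1 := by
    have := hχ.monic.coeff_natDegree
    rwa [hχ.deg] at this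
  rw [Polynomial.aeval_eq_sum_range, hχ.deg] at hz
  simp only [Algebra.smul_def] at hz
  rcases lt_trichotomy (‖z‖ ^ 11) ((1 / 2 : ℝ) ^ s) with hlt | heq | hgt
  · exfalso
    rw [Finset.sum_range_succ'] at hz
    rw [pow_zero, mul_one] at hz
    have h0 : ‖algebraMap ℚ_[2] (PadicAlgCl 2) (χ.coeff 0)‖ = (1 / 2 : ℝ) ^ s := by
      rw [norm_algebraMap', hχ.zero]
    have h1 : ‖∑ i ∈ Finset.range 11,
        algebraMap ℚ_[2] (PadicAlgCl 2) (χ.coeff (i + 1)) * z ^ (i + 1)‖ <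
          (1 / 2 : ℝ) ^ s := by
      refine norm_sum_lt _ _ _ hS fun i hi => ?_
      refine lt_of_pow_lt_pow_left₀ 11 hS.le ?_
      have hi' : i < 11 := Finset.mem_range.1 hi
      rcases Nat.lt_or_ge (i + 1) 11 with h11 | h11
      · refine lt_of_le_of_lt (norm_term hχ z (i + 1) h11) ?_
        calc ((1 / 2 : ℝ) ^ s) ^ (11 - (i + 1)) * (‖z‖ ^ 11) ^ (i + 1)
            < ((1 / 2 : ℝ) ^ s) ^ (11 - (i + 1)) * ((1 / 2 : ℝ) ^ s) ^ (i + 1) := by
              refine mul_lt_mul_of_pos_left ?_ (pow_pos hS _)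
              exact pow_lt_pow_left₀ hlt (by positivity) (Nat.succ_ne_zero i)
          _ = ((1 / 2 : ℝ) ^ s) ^ 11 := by
              rw [← pow_add]
              congr 1
              omega
      · have hi10 : i = 10 := by omega
        subst hi10
        rw [hc11, map_one, one_mul, norm_pow, ← pow_mul]
        calc ‖z‖ ^ ((10 + 1) * 11) = (‖z‖ ^ 11) ^ 11 := by rw [← pow_mul]
          _ < ((1 / 2 : ℝ) ^ s) ^ 11 := pow_lt_pow_left₀ hlt (by positivity) (by norm_num)
    have h2 : algebraMap ℚ_[2] (PadicAlgCl 2) (χ.coeff 0) = -∑ i ∈ Finset.range 11,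
        algebraMap ℚ_[2] (PadicAlgCl 2) (χ.coeff (i + 1)) * z ^ (i + 1) :=
      (neg_eq_of_add_eq_zero_right hz).symm
    rw [h2, norm_neg] at h0
    rw [h0] at h1
    exact lt_irrefl _ h1
  · exact heq
  · exfalso
    have hz0 : 0 < ‖z‖ := by
      by_contra hcon
      have : ‖z‖ = 0 := le_antisymm (not_lt.1 hcon) (norm_nonneg _)
      rw [this] at hgt
      norm_num at hgt
      exact absurd hgt (not_lt.2 (by positivity))
    rw [Finset.sum_range_succ] at hz
    rw [hc11, map_one, one_mul] at hz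
    have h1 : ‖∑ i ∈ Finset.range 11,
        algebraMap ℚ_[2] (PadicAlgCl 2) (χ.coeff i) * z ^ i‖ < ‖z‖ ^ 11 := by
      refine norm_sum_lt _ _ _ (pow_pos hz0 _) fun i hi => ?_
      refine lt_of_pow_lt_pow_left₀ 11 (by positivity) ?_
      have hi' : i < 11 := Finset.mem_range.1 hi
      refine lt_of_le_of_lt (norm_term hχ z i hi') ?_
      calc ((1 / 2 : ℝ) ^ s) ^ (11 - i) * (‖z‖ ^ 11) ^ i
          < (‖z‖ ^ 11) ^ (11 - i) * (‖z‖ ^ 11) ^ i := by
            refine mul_lt_mul_of_pos_right ?_ (pow_pos (pow_pos hz0 _) _)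
            exact pow_lt_pow_left₀ hgt hS.le (by omega)
        _ = (‖z‖ ^ 11) ^ 11 := by
            rw [← pow_add]
            congr 1
            omega
    have h2 : ∑ i ∈ Finset.range 11,
        algebraMap ℚ_[2] (PadicAlgCl 2) (χ.coeff i) * z ^ i = -z ^ 11 :=
      eq_neg_of_add_eq_zero_left hz
    rw [h2, norm_neg, norm_pow] at h1
    exact lt_irrefl _ h1

/-- The norm of a product of elements with the same power of the norm. -/
theorem norm_prod_pow (m : Multiset (PadicAlgCl 2)) (S : ℝ) (h : ∀ a ∈ m, ‖a‖ ^ 11 = S) :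
    ‖m.prod‖ ^ 11 = S ^ Multiset.card m := by
  induction m using Multiset.induction_on with
  | empty => simp
  | cons a m ih =>
    rw [Multiset.prod_cons, norm_mul, mul_pow, ih fun b hb => h b (Multiset.mem_cons_of_mem hb),
      h a (Multiset.mem_cons_self a m), Multiset.card_cons, pow_succ, mul_comm]

theorem slope_of_roots {s : ℕ} {χ : Polynomial ℚ_[2]} (hm : χ.Monic) (hd : χ.natDegree = 11)
    (h : ∀ z : PadicAlgCl 2, Polynomial.aeval z χ = 0 → ‖z‖ ^ 11 = (1 / 2 : ℝ) ^ s) :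
    Slope s χ := by
  have hS : (0 : ℝ) < (1 / 2 : ℝ) ^ s := by positivity
  set p : Polynomial (PadicAlgCl 2) := χ.map (algebraMap ℚ_[2] (PadicAlgCl 2)) with hp
  have hpm : p.Monic := hm.map _
  have hpd : p.natDegree = 11 := by rw [hp, hm.natDegree_map, hd]
  have hcard : Multiset.card p.roots = p.natDegree :=
    Polynomial.splits_iff_card_roots.1 (IsAlgClosed.splits p)
  have hroot : ∀ a ∈ p.roots, ‖a‖ ^ 11 = (1 / 2 : ℝ) ^ s := by
    intro a ha
    refine h a ?_
    have h1 := (Polynomial.mem_roots hpm.ne_zero).1 ha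
    rwa [Polynomial.IsRoot.def, hp, Polynomial.eval_map_algebraMap] at h1
  have hcoef : ∀ i ≤ 11, ‖χ.coeff i‖ = ‖p.roots.esymm (11 - i)‖ := by
    intro i hi
    have h1 := Polynomial.coeff_eq_esymm_roots_of_card hcard (k := i) (by rw [hpd]; exact hi)
    rw [hpm.leadingCoeff, one_mul, hpd] at h1
    rw [hp, Polynomial.coeff_map] at h1
    rw [← norm_algebraMap' (PadicAlgCl 2) (χ.coeff i), h1, norm_mul, norm_pow, norm_neg, norm_one,
      one_pow, one_mul]
  have hprod : ∀ m ≤ p.roots, ‖m.prod‖ ^ 11 = ((1 / 2 : ℝ) ^ s) ^ Multiset.card m := by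
    intro m hm'
    exact norm_prod_pow m _ fun a ha => hroot a (Multiset.mem_of_le hm' ha)
  refine ⟨hm, hd, fun i hi => ?_, ?_⟩
  · rw [hcoef i hi.le, Multiset.esymm]
    obtain ⟨m, hm1, hm2⟩ := IsUltrametricDist.exists_norm_multiset_sum_le
      (p.roots.powersetCard (11 - i)) (f := Multiset.prod)
    have hne : p.roots.powersetCard (11 - i) ≠ 0 := by
      intro h0
      have h1 := Multiset.card_powersetCard (11 - i) p.roots
      rw [h0, Multiset.card_zero, hcard, hpd] at h1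
      exact (Nat.choose_pos (Nat.sub_le 11 i)).ne' h1.symm
    obtain ⟨h1, h2⟩ := Multiset.mem_powersetCard.1 (hm1 hne)
    calc ‖((p.roots.powersetCard (11 - i)).map Multiset.prod).sum‖ ^ 11 ≤ ‖m.prod‖ ^ 11 :=
          pow_le_pow_left₀ (norm_nonneg _) hm2 11
      _ = ((1 / 2 : ℝ) ^ s) ^ (11 - i) := by rw [hprod m h1, h2]
      _ = (1 / 2 : ℝ) ^ (s * (11 - i)) := by rw [← pow_mul]
  · have h1 : ‖χ.coeff 0‖ ^ 11 = ((1 / 2 : ℝ) ^ s) ^ 11 := by
      have h2 : p.roots.esymm 11 = p.roots.prod := by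
        have h3 : (11 : ℕ) = Multiset.card p.roots := by rw [hcard, hpd]
        rw [Multiset.esymm, h3, Multiset.powersetCard_self, Multiset.map_singleton,
          Multiset.sum_singleton]
      rw [hcoef 0 (Nat.zero_le _), Nat.sub_zero, h2, hprod _ le_rfl, hcard, hpd]
    exact (pow_left_inj₀ (norm_nonneg _) hS.le (by norm_num)).1 h1

end Pool.Agent.Helper67.CQ
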